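import Pool.Agent.Q324.BS.Sound

/-!
# A satisfying assignment gives a stable matching
-/

namespace Pool.Agent.Q324.BS

open Pool.Agent.NPC Pool.Agent.Q324.CN

/-- the pairs of contradictory literals -/
def es (φ : Φ) : List (ℕ × ℕ) :=
  (List.range (3 * φ.length) ×ˢ List.range (3 * φ.length)).filter
    fun p => decide (p.1 < p.2) && conf φ p.1 p.2

theorem mem_es {φ : Φ} {p : ℕ × ℕ} : p ∈ es φ ↔
    p.1 < p.2 ∧ p.2 < 3 * φ.length ∧ conf φ p.1 p.2 = true := by
  obtain ⟨x, y⟩ := p
  unfold es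
  rw [List.mem_filter, List.mem_product, List.mem_range, List.mem_range, Bool.and_eq_true,
    decide_eq_true_eq]
  constructor
  · rintro ⟨⟨_, h2⟩, h3, h4⟩
    exact ⟨h3, h2, h4⟩
  · rintro ⟨h1, h2, h3⟩
    exact ⟨⟨h1.trans h2, h2⟩, h1, h3⟩

theorem nodup_es (φ : Φ) : (es φ).Nodup :=
  (List.Nodup.product List.nodup_range List.nodup_range).filter _

/-- the oriented pair: first the literal that may be chosen -/
def bl (c : ℕ → ℕ) (p : ℕ × ℕ) : ℕ × ℕ := if c (p.2 / 3) = p.2 then (p.2, p.1) else (p.1, p.2)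

theorem bl_cases (c : ℕ → ℕ) (p : ℕ × ℕ) : bl c p = (p.1, p.2) ∨ bl c p = (p.2, p.1) := by
  unfold bl
  split_ifs
  · exact Or.inr rfl
  · exact Or.inl rfl

theorem bl_facts {φ : Φ} (c : ℕ → ℕ) {p : ℕ × ℕ} (hp : p ∈ es φ) :
    (bl c p).1 < 3 * φ.length ∧ (bl c p).2 < 3 * φ.length ∧
      conf φ (bl c p).1 (bl c p).2 = true ∧ conf φ (bl c p).2 (bl c p).1 = true ∧
      hXs (3 * φ.length) (bl c p).1 (bl c p).2 = hX (3 * φ.length) p.1 p.2 ∧
      hXs (3 * φ.length) (bl c p).2 (bl c p).1 = hX (3 * φ.length) p.1 p.2 := by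
  obtain ⟨h1, h2, h3⟩ := mem_es.1 hp
  have e1 : hXs (3 * φ.length) p.1 p.2 = hX (3 * φ.length) p.1 p.2 := by
    unfold hXs
    rw [if_pos h1]
  have e2 : hXs (3 * φ.length) p.2 p.1 = hX (3 * φ.length) p.1 p.2 := by
    rw [hXs_symm (by omega), e1]
  rcases bl_cases c p with h | h <;> rw [h]
  · exact ⟨by simp only; omega, h2, h3, conf_symm h3, e1, e2⟩
  · exact ⟨h2, by simp only; omega, conf_symm h3, h3, e2, e1⟩

/-- Two edges whose oriented pairs agree up to order are equal. -/
theorem bl_inj {φ : Φ} {c : ℕ → ℕ} {p q : ℕ × ℕ} (hp : p ∈ es φ) (hq : q ∈ es φ)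
    (h : ((bl c p).1 = (bl c q).1 ∧ (bl c p).2 = (bl c q).2) ∨
      ((bl c p).1 = (bl c q).2 ∧ (bl c p).2 = (bl c q).1)) : p = q := by
  have hp1 := (mem_es.1 hp).1
  have hq1 := (mem_es.1 hq).1
  rcases bl_cases c p with h1 | h1 <;> rcases bl_cases c q with h2 | h2 <;>
    rw [h1, h2] at h <;> simp only at h <;> apply Prod.ext <;> omega

/-- the first pairs -/
def B1 (φ : Φ) (c : ℕ → ℕ) : List (ℕ × ℕ) :=
  (es φ).map fun p => (aA (3 * φ.length) (bl c p).2 (bl c p).1, hX (3 * φ.length) p.1 p.2)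

/-- the second pairs -/
def B2 (φ : Φ) (c : ℕ → ℕ) : List (ℕ × ℕ) :=
  (es φ).map fun p => (aA (3 * φ.length) (bl c p).1 (bl c p).2,
    hE (3 * φ.length) (bl c p).1 (bl c p).2)

/-- the third pairs -/
def B3 (φ : Φ) (c : ℕ → ℕ) : List (ℕ × ℕ) :=
  (List.range φ.length).map fun j => (aQ (c j), hC j)

/-- the lists of the men -/
def rr (φ : Φ) (k : ℕ) : List ℕ := full (num φ) (sh φ k)

theorem aA_lt {φ : Φ} {i j : ℕ} (hi : i < 3 * φ.length) (hj : j < 3 * φ.length) :
    aA (3 * φ.length) i j < num φ := by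
  unfold aA num
  have := pair_lt hi hj
  omega

theorem gr1 (φ : Φ) (c : ℕ → ℕ) : Gr (rr φ) (num φ) (B1 φ c ++ []) := by
  refine Gr.batch Gr.nil _ ?_ ?_ ?_
  · unfold B1
    rw [List.map_map]
    refine List.Nodup.map_on ?_ (nodup_es φ)
    intro p hp q hq h
    simp only [Function.comp] at h
    have h1 := bl_facts c hp
    have h2 := bl_facts c hq
    have h3 := aA_inj h1.1 h2.1 h
    exact bl_inj hp hq (Or.inl ⟨h3.2, h3.1⟩)
  · unfold B1
    rw [List.map_map]
    refine List.Nodup.map_on ?_ (nodup_es φ)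
    intro p hp q hq h
    simp only [Function.comp] at h
    have h1 := mem_es.1 hp
    have h2 := mem_es.1 hq
    have h3 := hX_inj h1.2.1 h2.2.1 h
    exact Prod.ext h3.1 h3.2
  · intro q hq
    obtain ⟨p, hp, rfl⟩ := List.mem_map.1 hq
    obtain ⟨h1, h2, h3, h4, h5, h6⟩ := bl_facts c hp
    refine ⟨aA_lt h2 h1, ?_, by simp, by simp, ?_⟩
    · have := hXs_lt h1 h2
      rw [h5] at this
      unfold num
      simp only
      omega
    · intro y _ _ hy
      simp only at hy ⊢
      unfold rr full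
      rw [sh_aA h2 h1 h4, h6]
      exact pref_cons hy

theorem gr2 (φ : Φ) (c : ℕ → ℕ) : Gr (rr φ) (num φ) (B2 φ c ++ (B1 φ c ++ [])) := by
  refine Gr.batch (gr1 φ c) _ ?_ ?_ ?_
  · unfold B2
    rw [List.map_map]
    refine List.Nodup.map_on ?_ (nodup_es φ)
    intro p hp q hq h
    simp only [Function.comp] at h
    have h1 := bl_facts c hp
    have h2 := bl_facts c hq
    have h3 := aA_inj h1.2.1 h2.2.1 h
    exact bl_inj hp hq (Or.inl ⟨h3.1, h3.2⟩)
  · unfold B2
    rw [List.map_map]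
    refine List.Nodup.map_on ?_ (nodup_es φ)
    intro p hp q hq h
    simp only [Function.comp] at h
    have h1 := bl_facts c hp
    have h2 := bl_facts c hq
    have h3 := hE_inj h1.2.1 h2.2.1 h
    exact bl_inj hp hq (Or.inl ⟨h3.1, h3.2⟩)
  · intro q hq
    obtain ⟨p, hp, rfl⟩ := List.mem_map.1 hq
    obtain ⟨h1, h2, h3, h4, h5, h6⟩ := bl_facts c hp
    rw [List.append_nil]
    refine ⟨aA_lt h1 h2, ?_, ?_, ?_, ?_⟩
    · have := pair_lt h1 h2
      unfold num hE
      simp only
      omega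
    · intro h
      rw [List.mem_map] at h
      obtain ⟨_, h, h'⟩ := h
      obtain ⟨q, hq, rfl⟩ := List.mem_map.1 h
      simp only at h'
      have g1 := bl_facts c hq
      have g2 := aA_inj g1.1 h2 h'
      have g3 := bl_inj hp hq (Or.inr ⟨g2.1.symm, g2.2.symm⟩)
      subst g3
      exact conf_ne h3 g2.1.symm
    · intro h
      rw [List.mem_map] at h
      obtain ⟨_, h, h'⟩ := h
      obtain ⟨q, hq, rfl⟩ := List.mem_map.1 h
      simp only at h'
      unfold hX hE at h'
      omega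
    · intro y _ hy1 hy2
      simp only at hy2 ⊢
      unfold rr full
      rw [sh_aA h1 h2 h3, h5]
      have hy3 : y ≠ hX (3 * φ.length) p.1 p.2 := by
        rintro rfl
        exact hy1 (List.mem_map.2 ⟨_, List.mem_map.2 ⟨p, hp, rfl⟩, rfl⟩)
      refine pref_short (by simp) ?_
      simp only [List.mem_cons, List.not_mem_nil, or_false, not_or]
      exact ⟨hy3, hy2⟩

variable {φ : Φ} {c : ℕ → ℕ}

theorem E_mem (h1 : ∀ j < φ.length, c j / 3 = j)
    (h2 : ∀ j < φ.length, ∀ j' < φ.length, conf φ (c j) (c j') = false) {j i' : ℕ}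
    (hj : j < φ.length) (hi' : i' < 3 * φ.length) (hcf : conf φ (c j) i' = true) :
    hE (3 * φ.length) (c j) i' ∈ (B2 φ c).map Prod.snd := by
  have hcj : c j < 3 * φ.length := by
    have := h1 j hj
    omega
  rw [List.mem_map]
  rcases lt_or_gt_of_ne (conf_ne hcf) with h | h
  · have hb : bl c (c j, i') = (c j, i') := by
      unfold bl
      rw [if_neg]
      simp only
      intro h3
      have := h2 j hj (i' / 3) (by omega)
      rw [h3, hcf] at this
      exact Bool.noConfusion this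
    refine ⟨_, List.mem_map.2 ⟨(c j, i'), mem_es.2 ⟨h, hi', hcf⟩, rfl⟩, ?_⟩
    simp only [hb]
  · have hb : bl c (i', c j) = (c j, i') := by
      unfold bl
      rw [if_pos]
      simp only
      rw [h1 j hj]
    refine ⟨_, List.mem_map.2 ⟨(i', c j), mem_es.2 ⟨h, hcj, conf_symm hcf⟩, rfl⟩, ?_⟩
    simp only [hb]

theorem mod_B (φ : Φ) (c : ℕ → ℕ) : ∀ q ∈ B2 φ c ++ (B1 φ c ++ []),
    q.1 % 4 = 2 ∧ (q.2 % 4 = 2 ∨ q.2 % 4 = 3) := by
  intro q hq
  rw [List.append_nil, List.mem_append] at hq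
  rcases hq with hq | hq
  · obtain ⟨p, hp, rfl⟩ := List.mem_map.1 hq
    simp only
    unfold aA hE
    omega
  · obtain ⟨p, hp, rfl⟩ := List.mem_map.1 hq
    simp only
    unfold aA hX
    omega

theorem gr3 (h1 : ∀ j < φ.length, c j / 3 = j)
    (h2 : ∀ j < φ.length, ∀ j' < φ.length, conf φ (c j) (c j') = false) :
    Gr (rr φ) (num φ) (B3 φ c ++ (B2 φ c ++ (B1 φ c ++ []))) := by
  refine Gr.batch (gr2 φ c) _ ?_ ?_ ?_
  · unfold B3
    rw [List.map_map]
    refine List.Nodup.map_on ?_ List.nodup_range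
    intro p hp q hq h
    rw [List.mem_range] at hp hq
    simp only [Function.comp, aQ] at h
    have g1 := h1 p hp
    have g2 := h1 q hq
    omega
  · unfold B3
    rw [List.map_map]
    refine List.Nodup.map_on ?_ List.nodup_range
    intro p hp q hq h
    simp only [Function.comp, hC] at h
    omega
  · intro q hq
    obtain ⟨j, hj, rfl⟩ := List.mem_map.1 hq
    rw [List.mem_range] at hj
    have hcj : c j < 3 * φ.length := by
      have := h1 j hj
      omega
    have hN : 0 < 3 * φ.length := by omega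
    refine ⟨?_, ?_, ?_, ?_, ?_⟩
    · unfold num aQ
      simp only
      omega
    · unfold num hC
      simp only
      omega
    · intro h
      rw [List.mem_map] at h
      obtain ⟨x, h, h'⟩ := h
      have := (mod_B φ c x h).1
      simp only [aQ] at h'
      omega
    · intro h
      rw [List.mem_map] at h
      obtain ⟨x, h, h'⟩ := h
      have := (mod_B φ c x h).2
      simp only [hC] at h'
      omega
    · intro y _ hy1 hy2
      simp only at hy2 ⊢
      unfold rr full
      rw [sh_aQ hcj, h1 j hj]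
      refine pref_short (by simp) ?_
      rw [List.mem_append, mem_sQ, List.mem_singleton, not_or]
      refine ⟨?_, hy2⟩
      rintro ⟨i', hi', hcf, rfl⟩
      refine hy1 ?_
      rw [List.map_append, List.mem_append]
      exact Or.inl (E_mem h1 h2 hj hi' hcf)

theorem gr4 (h1 : ∀ j < φ.length, c j / 3 = j)
    (h2 : ∀ j < φ.length, ∀ j' < φ.length, conf φ (c j) (c j') = false) :
    Gr (rr φ) (num φ) ((0, 0) :: (B3 φ c ++ (B2 φ c ++ (B1 φ c ++ [])))) := by
  have hmod : ∀ q ∈ B3 φ c ++ (B2 φ c ++ (B1 φ c ++ [])), q.1 % 4 ≠ 0 ∧ q.2 % 4 ≠ 0 := by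
    intro q hq
    rw [List.mem_append] at hq
    rcases hq with hq | hq
    · obtain ⟨j, hj, rfl⟩ := List.mem_map.1 hq
      simp only [aQ, hC]
      omega
    · have := mod_B φ c q hq
      omega
  refine Gr.cons (gr3 h1 h2) (num_pos φ) (num_pos φ) ?_ ?_ ?_
  · intro h
    rw [List.mem_map] at h
    obtain ⟨x, h, h'⟩ := h
    have := (hmod x h).1
    omega
  · intro h
    rw [List.mem_map] at h
    obtain ⟨x, h, h'⟩ := h
    have := (hmod x h).2
    omega
  · intro y _ hy1 hy2
    refine pref_zero (num_pos φ) (zero_notMem_sh φ 0) ?_ hy2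
    rw [sh_zero, List.mem_map]
    rintro ⟨j, hj, rfl⟩
    refine hy1 ?_
    rw [List.map_append, List.mem_append]
    exact Or.inl (List.mem_map.2 ⟨_, List.mem_map.2 ⟨j, hj, rfl⟩, rfl⟩)

theorem rr_mem (φ : Φ) (a y : ℕ) (hy : y < num φ) : y ∈ rr φ a := by
  unfold rr full
  rw [List.mem_append, List.mem_filter, List.mem_range]
  by_cases h : y ∈ sh φ a
  · exact Or.inl h
  · exact Or.inr ⟨hy, by simpa using h⟩

theorem idx_wo {n x : ℕ} (hx : x + 1 < n) :
    ((List.range (n - 1)).map (fun x => x + 1) ++ [0]).idxOf (x + 1) = x := by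
  have h1 : x < ((List.range (n - 1)).map (fun x => x + 1)).length := by
    rw [List.length_map, List.length_range]
    omega
  have hm : x + 1 ∈ (List.range (n - 1)).map (fun x => x + 1) :=
    List.mem_map.2 ⟨x, List.mem_range.2 (by omega), rfl⟩
  rw [List.idxOf_append_of_mem hm]
  have h2 : ((List.range (n - 1)).map (fun x => x + 1)).Nodup :=
    List.nodup_range.map (fun a b h => by simpa using h)
  have h3 := h2.idxOf_getElem x h1
  simpa using h3

theorem idx_wo_zero (n : ℕ) :
    ((List.range (n - 1)).map (fun x => x + 1) ++ [0]).idxOf 0 = n - 1 := by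
  rw [List.idxOf_append_of_notMem (by simp)]
  simp

theorem complete (h : SAT3 φ) : HasStable (inst φ) := by
  obtain ⟨c, h1, h2⟩ := (sat_iff_choice φ).1 h
  obtain ⟨l', hl1, hl2⟩ := (gr4 h1 h2).complete (fun a _ y hy => rr_mem φ a y hy)
  obtain ⟨M, hM, hM1, ρ, hρ⟩ := hl1.matching hl2
  have hn := num_pos φ
  have hlen : M.length = num φ := by rw [hM.length_eq, List.length_range]
  have hnd : M.Nodup := hM.nodup_iff.2 List.nodup_range
  have h0 : M.getD 0 0 = 0 := hM1 0 0 (List.mem_append_right _ List.mem_cons_self)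
  have hi0 : M.idxOf 0 = 0 := by
    have := hnd.idxOf_getElem 0 (by omega)
    rw [List.getD_eq_getElem _ _ (by omega)] at h0
    rwa [h0] at this
  refine ⟨M, ?_, ?_, ?_⟩
  · change M.Perm (List.range (men φ).length)
    rw [men_length]
    exact hM
  · refine not_blocking ρ ?_
    change ∀ a < (men φ).length, ∀ b < (men φ).length, _
    rw [men_length]
    intro a ha b hb hab
    refine hρ a ha b hb ?_
    change Prefers ((men φ).getD a []) _ _ at hab
    rw [men_getD ha] at hab
    exact hab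
  · refine not_blocking (fun w => M.idxOf w) ?_
    change ∀ a < (wom φ).length, ∀ b < (wom φ).length, _
    rw [wom_length]
    intro a ha b hb hab
    change Prefers ((wom φ).getD a []) (M.idxOf b) (M.idxOf a) at hab
    rw [wom_getD ha] at hab
    obtain ⟨ga, ga'⟩ := partner hM ha
    obtain ⟨gb, gb'⟩ := partner hM hb
    unfold wo at hab
    split_ifs at hab with ha0
    · subst ha0
      exfalso
      rw [hi0] at hab
      unfold Prefers at hab
      obtain ⟨k, hk⟩ := Nat.exists_eq_add_of_lt hn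
      rw [hk, zero_add, List.range_succ_eq_map] at hab
      simp at hab
    · have hpa : M.idxOf a ≠ 0 := by
        intro h
        rw [h, h0] at ga'
        exact ha0 ga'.symm
      obtain ⟨x, hx⟩ := Nat.exists_eq_succ_of_ne_zero hpa
      rw [hx] at hab ga
      unfold Prefers at hab
      rw [Nat.succ_eq_add_one, idx_wo ga] at hab
      rcases Nat.eq_zero_or_pos (M.idxOf b) with hb0 | hb0
      · rw [hb0, idx_wo_zero] at hab
        omega
      · obtain ⟨y, hy⟩ := Nat.exists_eq_succ_of_ne_zero hb0.ne'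
        rw [hy] at gb
        rw [hy, Nat.succ_eq_add_one, idx_wo gb] at hab
        change M.idxOf b < M.idxOf a
        omega

end Pool.Agent.Q324.BS
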