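import Mathlib

/-!
# Coalition-exchange-stable matchings
-/

namespace Pool.Agent.Q324.BS

/-- An instance of the stable marriage problem: the preference lists of the men (lists of women) and
the preference lists of the women (lists of men). Men and women are numbered from `0`. -/
abbrev Inst : Type := List (List ℕ) × List (List ℕ)

/-- The preference lists are complete and strict: there are `n` men and `n` women, and every list is
an ordering of `0, ..., n - 1` (the most preferred agent first). -/
def Valid (I : Inst) : Prop :=
  I.2.length = I.1.length ∧ (∀ L ∈ I.1, L.Perm (List.range I.1.length)) ∧
    ∀ L ∈ I.2, L.Perm (List.range I.1.length)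

/-- The agent with the preference list `L` strictly prefers `x` to `y`. -/
def Prefers (L : List ℕ) (x y : ℕ) : Prop := L.idxOf x < L.idxOf y

/-- With the preference lists `P` and the partners `M`, the agent `a` strictly prefers the partner
of `b` to its own partner. -/
def Envy (P : List (List ℕ)) (M : ℕ → ℕ) (a b : ℕ) : Prop := Prefers (P.getD a []) (M b) (M a)

/-- `l` is an exchange-blocking coalition of agents of the side with the preference lists `P`, when
`M` gives the partners of these agents: the agents of `l` are at least two and distinct, and each
of them strictly prefers the partner of the next one (cyclically) to its own partner. -/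
def Blocking (P : List (List ℕ)) (M : ℕ → ℕ) (l : List ℕ) : Prop :=
  2 ≤ l.length ∧ l.Nodup ∧ (∀ a ∈ l, a < P.length) ∧
    ∀ i < l.length, Envy P M (l.getD i 0) (l.getD ((i + 1) % l.length) 0)

/-- A matching is a list `M` in which every woman occurs exactly once: man `i` is matched to the
woman `M.getD i 0` and woman `w` to the man `M.idxOf w`. It is coalition-exchange-stable if there is
no exchange-blocking coalition of men and none of women. -/
def Stable (I : Inst) (M : List ℕ) : Prop :=
  M.Perm (List.range I.1.length) ∧ (∀ l, ¬ Blocking I.1 (fun a => M.getD a 0) l) ∧
    ∀ l, ¬ Blocking I.2 (fun w => M.idxOf w) l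

/-- The instance has a coalition-exchange-stable matching. -/
def HasStable (I : Inst) : Prop := ∃ M, Stable I M

/-- `f` solves the search problem: on every valid instance it returns a coalition-exchange-stable
matching if there is one, and `none` otherwise. -/
def Solves (f : Inst → Option (List ℕ)) : Prop :=
  ∀ I, Valid I → (∀ M, f I = some M → Stable I M) ∧ (f I = none → ¬ HasStable I)

end Pool.Agent.Q324.BS
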