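import Pool.Agent.Q324.BS.Complete
import Pool.Agent.Q324.FA.Main

/-!
# Coalition-exchange-stable matchings: hardness
-/

namespace Pool.Agent.Q324.BS

open Pool.Agent.NPC Pool.Agent.Q324.CN Pool.Agent.Q324.FA

/-- **The reduction is correct.** -/
theorem inst_iff (φ : Φ) : SAT3 φ ↔ HasStable (inst φ) :=
  ⟨complete, fun ⟨_, h⟩ => sound h⟩

theorem num_poly {α : Type} [TEnc α] {φ : α → Φ} (hφ : Poly φ) : Poly (fun a => num (φ a)) := by
  unfold num
  fun_prop

theorem num_upoly {α : Type} [TEnc α] {φ : α → Φ} (hφ : Poly φ) : UPoly (fun a => num (φ a)) := by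
  unfold num
  exact UPoly.add (UPoly.mul (UPoly.const 4) (UPoly.add (UPoly.mul
    (UPoly.mul (UPoly.const 3) (UPoly.length hφ)) (UPoly.mul (UPoly.const 3) (UPoly.length hφ)))
    (UPoly.mul (UPoly.const 3) (UPoly.length hφ)))) (UPoly.const 4)

theorem rnum_poly {α : Type} [TEnc α] {φ : α → Φ} (hφ : Poly φ) :
    Poly (fun a => List.range (num (φ a))) := UPoly.range (num_upoly hφ)

theorem conf_poly {α : Type} [TEnc α] {φ : α → Φ} {i j : α → ℕ} (h1 : Poly φ) (h2 : Poly i)
    (h3 : Poly j) : Poly (fun a => conf (φ a) (i a) (j a)) := by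
  unfold conf
  fun_prop

theorem hC_poly {α : Type} [TEnc α] {i : α → ℕ} (h1 : Poly i) : Poly (fun a => hC (i a)) := by
  unfold hC
  fun_prop

theorem hX_poly {α : Type} [TEnc α] {N i j : α → ℕ} (h1 : Poly N) (h2 : Poly i)
    (h3 : Poly j) : Poly (fun a => hX (N a) (i a) (j a)) := by
  unfold hX
  fun_prop

theorem hE_poly {α : Type} [TEnc α] {N i j : α → ℕ} (h1 : Poly N) (h2 : Poly i)
    (h3 : Poly j) : Poly (fun a => hE (N a) (i a) (j a)) := by
  unfold hE
  fun_prop

attribute [fun_prop] num_poly rnum_poly conf_poly hC_poly hX_poly hE_poly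

theorem hXs_poly {α : Type} [TEnc α] {N i j : α → ℕ} (h1 : Poly N) (h2 : Poly i)
    (h3 : Poly j) : Poly (fun a => hXs (N a) (i a) (j a)) := by
  unfold hXs
  fun_prop

theorem sQ_poly {α : Type} [TEnc α] {φ : α → Φ} {i : α → ℕ} (h1 : Poly φ) (h2 : Poly i) :
    Poly (fun a => sQ (φ a) (i a)) := by
  unfold sQ
  fun_prop

attribute [fun_prop] hXs_poly sQ_poly

theorem sh_poly {α : Type} [TEnc α] {φ : α → Φ} {i : α → ℕ} (h1 : Poly φ) (h2 : Poly i) :
    Poly (fun a => sh (φ a) (i a)) := by
  unfold sh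
  fun_prop

attribute [fun_prop] sh_poly

theorem men_poly : Poly men := by
  unfold men full
  fun_prop

theorem rnum1_poly {α : Type} [TEnc α] {φ : α → Φ} (hφ : Poly φ) :
    Poly (fun a => List.range (num (φ a) - 1)) := by
  have h1 : Poly (fun a => num (φ a) - 1) := by fun_prop
  exact UPoly.range (UPoly.of_le h1 (num_upoly hφ) fun a => Nat.sub_le _ _)

attribute [fun_prop] rnum1_poly

theorem wom_poly : Poly wom := by
  unfold wom wo
  have h1 : Poly (fun p : Φ × ℕ => List.range (num p.1)) := by fun_prop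
  have h2 : Poly (fun p : Φ × ℕ =>
      (List.range (num p.1 - 1)).map (fun x => x + 1) ++ [0]) := by fun_prop
  have h3 : Poly (fun p : Φ × ℕ => if p.2 = 0 then List.range (num p.1) else
      (List.range (num p.1 - 1)).map (fun x => x + 1) ++ [0]) := by fun_prop
  exact NPC.Poly.map (F := fun φ w => if w = 0 then List.range (num φ) else
      (List.range (num φ - 1)).map (fun x => x + 1) ++ [0]) (by fun_prop) h3

theorem inst_poly : Poly inst := by
  unfold inst
  exact NPC.Poly.pair men_poly wom_poly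

/-- Hardness, already for valid instances. -/
theorem hardPr_stable : HardPr Valid HasStable :=
  hardPr_two.trans inst_poly (fun φ _ => valid_inst φ) (fun φ _ => inst_iff φ)

end Pool.Agent.Q324.BS
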