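import Pool.Agent.Q324.BS.SD
import Pool.Agent.Q324.CN.Red

/-!
# The reduction from 3-satisfiability
-/

namespace Pool.Agent.Q324.BS

open Pool.Agent.NPC Pool.Agent.Q324.CN

/-! ### Preference lists -/

theorem pref_short {s t : List ℕ} {x y : ℕ} (hx : x ∈ s) (hy : y ∉ s) : Prefers (s ++ t) x y := by
  unfold Prefers
  rw [List.idxOf_append_of_mem hx, List.idxOf_append_of_notMem hy]
  have := List.idxOf_lt_length_of_mem hx
  omega

theorem pref_cons {s : List ℕ} {x y : ℕ} (hy : y ≠ x) : Prefers (x :: s) x y := by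
  unfold Prefers
  rw [List.idxOf_cons_self, List.idxOf_cons_ne _ hy.symm]
  omega

/-- the completion of a short list -/
def full (n : ℕ) (s : List ℕ) : List ℕ :=
  s ++ (List.range n).filter fun x => !decide (x ∈ s)

theorem full_perm {n : ℕ} {s : List ℕ} (h1 : s.Nodup) (h2 : ∀ x ∈ s, x < n) :
    (full n s).Perm (List.range n) := by
  unfold full
  rw [List.perm_ext_iff_of_nodup _ List.nodup_range]
  · intro a
    simp only [List.mem_append, List.mem_filter, List.mem_range, Bool.not_eq_true',
      decide_eq_false_iff_not]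
    constructor
    · rintro (h | h)
      · exact h2 a h
      · exact h.1
    · intro h
      by_cases ha : a ∈ s
      · exact Or.inl ha
      · exact Or.inr ⟨h, ha⟩
  · rw [List.nodup_append']
    refine ⟨h1, List.nodup_range.filter _, ?_⟩
    intro x hx hx'
    simp only [List.mem_filter, Bool.not_eq_true', decide_eq_false_iff_not] at hx'
    exact hx'.2 hx

theorem pref_zero {n : ℕ} (hn : 0 < n) {s : List ℕ} {y : ℕ} (h0 : 0 ∉ s) (hy : y ∉ s)
    (hy0 : y ≠ 0) : Prefers (full n s) 0 y := by
  obtain ⟨k, rfl⟩ := Nat.exists_eq_add_of_lt hn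
  unfold full Prefers
  rw [List.idxOf_append_of_notMem h0, List.idxOf_append_of_notMem hy, zero_add,
    List.range_succ_eq_map, List.filter_cons_of_pos (by simpa using h0), List.idxOf_cons_self,
    List.idxOf_cons_ne _ hy0.symm]
  omega

/-! ### The instance -/

/-- contradictory literals -/
def conf (φ : Φ) (i j : ℕ) : Bool :=
  decide ((lt φ i).2 = (lt φ j).2) && !decide ((lt φ i).1 = (lt φ j).1)

theorem conf_iff {φ : Φ} {i j : ℕ} : conf φ i j = true ↔
    (lt φ i).2 = (lt φ j).2 ∧ (lt φ i).1 ≠ (lt φ j).1 := by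
  simp [conf]

theorem conf_symm {φ : Φ} {i j : ℕ} (h : conf φ i j = true) : conf φ j i = true := by
  rw [conf_iff] at h ⊢
  exact ⟨h.1.symm, h.2.symm⟩

theorem conf_ne {φ : Φ} {i j : ℕ} (h : conf φ i j = true) : i ≠ j := by
  rintro rfl
  rw [conf_iff] at h
  exact h.2 rfl

/-- The choice of a literal of every clause. -/
theorem sat_iff_choice (φ : Φ) : SAT3 φ ↔ ∃ c : ℕ → ℕ, (∀ j < φ.length, c j / 3 = j) ∧
    ∀ j < φ.length, ∀ j' < φ.length, conf φ (c j) (c j') = false := by
  rw [sat_iff]
  constructor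
  · rintro ⟨τ, hτ⟩
    have hex : ∀ j, ∃ i, j < φ.length → i / 3 = j ∧ τ (lt φ i).2 = (lt φ i).1 := by
      intro j
      by_cases hj : j < φ.length
      · obtain ⟨r, hr, h⟩ := hτ j hj
        exact ⟨3 * j + r, fun _ => ⟨by omega, h⟩⟩
      · exact ⟨0, fun h => absurd h hj⟩
    choose c hc using hex
    refine ⟨c, fun j hj => (hc j hj).1, fun j hj j' hj' => ?_⟩
    rw [Bool.eq_false_iff]
    intro h
    rw [conf_iff] at h
    have h1 := (hc j hj).2
    have h2 := (hc j' hj').2
    rw [h.1] at h1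
    exact h.2 (h1.symm.trans h2)
  · rintro ⟨c, hc1, hc2⟩
    refine ⟨fun x => decide (∃ j < φ.length, lt φ (c j) = (true, x)), fun j hj =>
      ⟨c j % 3, Nat.mod_lt _ (by norm_num), ?_⟩⟩
    have h1 : 3 * j + c j % 3 = c j := by
      have := hc1 j hj
      omega
    rw [h1]
    cases h2 : (lt φ (c j)).1
    · rw [decide_eq_false_iff_not]
      rintro ⟨j', hj', h3⟩
      have h4 := hc2 j hj j' hj'
      have h5 : conf φ (c j) (c j') = true := by
        rw [conf_iff, h3, h2]
        exact ⟨rfl, by simp⟩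
      rw [h4] at h5
      exact Bool.false_ne_true h5
    · rw [decide_eq_true_eq]
      exact ⟨j, hj, Prod.ext h2 rfl⟩

/-- the women of the clauses -/
def hC (j : ℕ) : ℕ := 4 * j + 1
/-- the women of the pairs of contradictory literals -/
def hX (N i j : ℕ) : ℕ := 4 * (i * N + j) + 2
/-- the women of the ordered pairs of contradictory literals -/
def hE (N i j : ℕ) : ℕ := 4 * (i * N + j) + 3
/-- the men of the literals -/
def aQ (i : ℕ) : ℕ := 4 * i + 1
/-- the men of the ordered pairs of contradictory literals -/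
def aA (N i j : ℕ) : ℕ := 4 * (i * N + j) + 2

/-- the number of men -/
def num (φ : Φ) : ℕ := 4 * (3 * φ.length * (3 * φ.length) + 3 * φ.length) + 4

/-- the short lists of the literals -/
def sQ (φ : Φ) (i : ℕ) : List ℕ :=
  ((List.range (3 * φ.length)).filter fun j => conf φ i j).map fun j => hE (3 * φ.length) i j

/-- the woman of the unordered pair -/
def hXs (N i j : ℕ) : ℕ := if i < j then hX N i j else hX N j i

/-- the short list of man `k` -/
def sh (φ : Φ) (k : ℕ) : List ℕ :=
  if k = 0 then (List.range φ.length).map hC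
  else if k % 4 = 1 then
    if k / 4 < 3 * φ.length then sQ φ (k / 4) ++ [hC (k / 4 / 3)] else []
  else if k % 4 = 2 then
    if k / 4 < 3 * φ.length * (3 * φ.length) then
      if conf φ (k / 4 / (3 * φ.length)) (k / 4 % (3 * φ.length)) = true then
        [hXs (3 * φ.length) (k / 4 / (3 * φ.length)) (k / 4 % (3 * φ.length)),
          hE (3 * φ.length) (k / 4 / (3 * φ.length)) (k / 4 % (3 * φ.length))]
      else []
    else []
  else []

/-- the list of woman `w` -/
def wo (n w : ℕ) : List ℕ :=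
  if w = 0 then List.range n else (List.range (n - 1)).map (fun x => x + 1) ++ [0]

/-- the lists of the men -/
def men (φ : Φ) : List (List ℕ) := (List.range (num φ)).map fun k => full (num φ) (sh φ k)

/-- the lists of the women -/
def wom (φ : Φ) : List (List ℕ) := (List.range (num φ)).map fun w => wo (num φ) w

/-- the instance -/
def inst (φ : Φ) : Inst := (men φ, wom φ)

/-! ### Codes -/

theorem pair_inj {N i j i' j' : ℕ} (hj : j < N) (hj' : j' < N) (h : i * N + j = i' * N + j') :
    i = i' ∧ j = j' := by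
  have h1 : (i * N + j) / N = i := by
    rw [mul_comm, Nat.mul_add_div (by omega), Nat.div_eq_of_lt hj, add_zero]
  have h2 : (i' * N + j') / N = i' := by
    rw [mul_comm, Nat.mul_add_div (by omega), Nat.div_eq_of_lt hj', add_zero]
  have h3 : i = i' := by rw [← h1, ← h2, h]
  subst h3
  exact ⟨rfl, by omega⟩

theorem pair_lt {N i j : ℕ} (hi : i < N) (hj : j < N) : i * N + j < N * N := by
  have : (i + 1) * N ≤ N * N := Nat.mul_le_mul_right _ hi
  rw [add_mul, one_mul] at this
  omega

theorem hE_inj {N i j i' j' : ℕ} (hj : j < N) (hj' : j' < N) (h : hE N i j = hE N i' j') :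
    i = i' ∧ j = j' := by
  unfold hE at h
  exact pair_inj hj hj' (by omega)

theorem hX_inj {N i j i' j' : ℕ} (hj : j < N) (hj' : j' < N) (h : hX N i j = hX N i' j') :
    i = i' ∧ j = j' := by
  unfold hX at h
  exact pair_inj hj hj' (by omega)

theorem aA_inj {N i j i' j' : ℕ} (hj : j < N) (hj' : j' < N) (h : aA N i j = aA N i' j') :
    i = i' ∧ j = j' := by
  unfold aA at h
  exact pair_inj hj hj' (by omega)

/-! ### The short lists -/

theorem sh_zero (φ : Φ) : sh φ 0 = (List.range φ.length).map hC := by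
  unfold sh
  rw [if_pos rfl]

theorem sh_aQ {φ : Φ} {i : ℕ} (hi : i < 3 * φ.length) : sh φ (aQ i) = sQ φ i ++ [hC (i / 3)] := by
  have h1 : aQ i ≠ 0 := by unfold aQ; omega
  have h2 : aQ i % 4 = 1 := by unfold aQ; omega
  have h3 : aQ i / 4 = i := by unfold aQ; omega
  unfold sh
  rw [if_neg h1, if_pos h2, h3, if_pos hi]

theorem sh_aA {φ : Φ} {i j : ℕ} (hi : i < 3 * φ.length) (hj : j < 3 * φ.length)
    (h : conf φ i j = true) :
    sh φ (aA (3 * φ.length) i j) = [hXs (3 * φ.length) i j, hE (3 * φ.length) i j] := by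
  have h1 : aA (3 * φ.length) i j ≠ 0 := by unfold aA; omega
  have h2 : aA (3 * φ.length) i j % 4 = 2 := by unfold aA; omega
  have h3 : aA (3 * φ.length) i j / 4 = i * (3 * φ.length) + j := by unfold aA; omega
  have h4 : (i * (3 * φ.length) + j) / (3 * φ.length) = i := by
    rw [mul_comm i, Nat.mul_add_div (by omega), Nat.div_eq_of_lt hj, add_zero]
  have h5 : (i * (3 * φ.length) + j) % (3 * φ.length) = j := by
    rw [mul_comm i, Nat.mul_add_mod, Nat.mod_eq_of_lt hj]
  unfold sh
  rw [if_neg h1, h2, if_neg (by norm_num), if_pos rfl, h3, if_pos (pair_lt hi hj), h4, h5, if_pos h]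

theorem mem_sQ {φ : Φ} {i x : ℕ} : x ∈ sQ φ i ↔
    ∃ j < 3 * φ.length, conf φ i j = true ∧ x = hE (3 * φ.length) i j := by
  unfold sQ
  simp only [List.mem_map, List.mem_filter, List.mem_range]
  constructor
  · rintro ⟨j, ⟨h1, h2⟩, rfl⟩
    exact ⟨j, h1, h2, rfl⟩
  · rintro ⟨j, h1, h2, rfl⟩
    exact ⟨j, ⟨h1, h2⟩, rfl⟩

/-- Who has which woman on the short list. -/
theorem mem_sh {φ : Φ} {k x : ℕ} (h : x ∈ sh φ k) :
    (k = 0 ∧ ∃ j < φ.length, x = hC j) ∨
    (∃ i < 3 * φ.length, k = aQ i ∧
      ((∃ j < 3 * φ.length, conf φ i j = true ∧ x = hE (3 * φ.length) i j) ∨ x = hC (i / 3))) ∨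
    ∃ i < 3 * φ.length, ∃ j < 3 * φ.length, conf φ i j = true ∧ k = aA (3 * φ.length) i j ∧
      (x = hXs (3 * φ.length) i j ∨ x = hE (3 * φ.length) i j) := by
  unfold sh at h
  split_ifs at h with h1 h2 h3 h4 h5 h6
  · rw [List.mem_map] at h
    obtain ⟨j, hj, rfl⟩ := h
    exact Or.inl ⟨h1, j, List.mem_range.1 hj, rfl⟩
  · refine Or.inr (Or.inl ⟨k / 4, h3, by unfold aQ; omega, ?_⟩)
    rw [List.mem_append, mem_sQ, List.mem_singleton] at h
    exact h
  · exact absurd h (by simp)
  · have hN : 0 < 3 * φ.length := by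
      rcases Nat.eq_zero_or_pos (3 * φ.length) with h0 | h0
      · rw [h0] at h5
        omega
      · exact h0
    have e1 : k / 4 / (3 * φ.length) < 3 * φ.length :=
      Nat.div_lt_of_lt_mul h5
    have e2 := Nat.mod_lt (k / 4) hN
    refine Or.inr (Or.inr ⟨k / 4 / (3 * φ.length), e1, k / 4 % (3 * φ.length), e2, h6, ?_, ?_⟩)
    · unfold aA
      have := Nat.div_add_mod (k / 4) (3 * φ.length)
      rw [mul_comm] at this
      rw [this]
      omega
    · simpa using h
  · exact absurd h (by simp)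
  · exact absurd h (by simp)
  · exact absurd h (by simp)

theorem hXs_lt {N i j : ℕ} (hi : i < N) (hj : j < N) : hXs N i j < 4 * (N * N) := by
  unfold hXs hX
  have h1 := pair_lt hi hj
  have h2 := pair_lt hj hi
  split_ifs <;> omega

theorem sh_lt {φ : Φ} {k x : ℕ} (h : x ∈ sh φ k) : x < num φ := by
  unfold num
  rcases mem_sh h with ⟨_, j, hj, rfl⟩ | ⟨i, hi, _, ⟨j, hj, _, rfl⟩ | rfl⟩ |
    ⟨i, hi, j, hj, _, _, rfl | rfl⟩
  · unfold hC
    omega
  · unfold hE
    have := pair_lt hi hj
    omega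
  · unfold hC
    omega
  · have := hXs_lt hi hj
    omega
  · unfold hE
    have := pair_lt hi hj
    omega

theorem hXs_mod (N i j : ℕ) : hXs N i j % 4 = 2 := by
  unfold hXs hX
  split_ifs <;> omega

theorem sh_ne_zero {φ : Φ} {k x : ℕ} (h : x ∈ sh φ k) : x ≠ 0 := by
  rcases mem_sh h with ⟨_, j, hj, rfl⟩ | ⟨i, hi, _, ⟨j, hj, _, rfl⟩ | rfl⟩ |
    ⟨i, hi, j, hj, _, _, rfl | rfl⟩
  · unfold hC
    omega
  · unfold hE
    omega
  · unfold hC
    omega
  · have := hXs_mod (3 * φ.length) i j
    omega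
  · unfold hE
    omega

theorem zero_notMem_sh (φ : Φ) (k : ℕ) : 0 ∉ sh φ k := fun h => sh_ne_zero h rfl

theorem sh_nodup (φ : Φ) (k : ℕ) : (sh φ k).Nodup := by
  unfold sh
  split_ifs with h1 h2 h3 h4 h5 h6
  · exact List.nodup_range.map (fun a b h => by unfold hC at h; omega)
  · rw [List.nodup_append']
    refine ⟨?_, List.nodup_singleton _, ?_⟩
    · unfold sQ
      refine List.Nodup.map_on ?_ (List.nodup_range.filter _)
      intro a ha b hb hab
      rw [List.mem_filter, List.mem_range] at ha hb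
      exact (hE_inj ha.1 hb.1 hab).2
    · intro x hx hx'
      rw [mem_sQ] at hx
      obtain ⟨j, _, _, rfl⟩ := hx
      rw [List.mem_singleton] at hx'
      unfold hE hC at hx'
      omega
  · simp
  · rw [List.nodup_cons]
    refine ⟨?_, List.nodup_singleton _⟩
    rw [List.mem_singleton]
    intro h
    have := hXs_mod (3 * φ.length) (k / 4 / (3 * φ.length)) (k / 4 % (3 * φ.length))
    rw [h] at this
    unfold hE at this
    omega
  · simp
  · simp
  · simp

theorem wo_perm {n : ℕ} (hn : 0 < n) (w : ℕ) : (wo n w).Perm (List.range n) := by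
  unfold wo
  split_ifs
  · exact List.Perm.refl _
  · obtain ⟨k, rfl⟩ := Nat.exists_eq_add_of_lt hn
    rw [zero_add, Nat.add_sub_cancel, List.range_succ_eq_map]
    exact (List.perm_append_singleton _ _)

theorem num_pos (φ : Φ) : 0 < num φ := by unfold num; omega

theorem men_length (φ : Φ) : (men φ).length = num φ := by simp [men]
theorem wom_length (φ : Φ) : (wom φ).length = num φ := by simp [wom]

theorem men_getD {φ : Φ} {k : ℕ} (hk : k < num φ) : (men φ).getD k [] = full (num φ) (sh φ k) := by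
  rw [List.getD_eq_getElem _ _ (by rwa [men_length])]
  simp [men]

theorem wom_getD {φ : Φ} {k : ℕ} (hk : k < num φ) : (wom φ).getD k [] = wo (num φ) k := by
  rw [List.getD_eq_getElem _ _ (by rwa [wom_length])]
  simp [wom]

theorem valid_inst (φ : Φ) : Valid (inst φ) := by
  refine ⟨?_, ?_, ?_⟩
  · change (wom φ).length = (men φ).length
    rw [men_length, wom_length]
  · change ∀ L ∈ men φ, L.Perm (List.range (men φ).length)
    intro L hL
    rw [men_length]
    obtain ⟨k, _, rfl⟩ := List.mem_map.1 hL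
    exact full_perm (sh_nodup φ k) fun x hx => sh_lt hx
  · change ∀ L ∈ wom φ, L.Perm (List.range (men φ).length)
    intro L hL
    rw [men_length]
    obtain ⟨k, _, rfl⟩ := List.mem_map.1 hL
    exact wo_perm (num_pos φ) k

end Pool.Agent.Q324.BS
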