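import Pool.Agent.Q324.BS.Defs

/-!
# Serial dictatorship
-/

namespace Pool.Agent.Q324.BS

/-- The pairs of `l` (last one first) are obtained by letting agents choose one after the other. -/
inductive Gr (r : ℕ → List ℕ) (n : ℕ) : List (ℕ × ℕ) → Prop
  | nil : Gr r n []
  | cons {l : List (ℕ × ℕ)} {a x : ℕ} : Gr r n l → a < n → x < n → a ∉ l.map Prod.fst →
      x ∉ l.map Prod.snd → (∀ y < n, y ∉ l.map Prod.snd → y ≠ x → Prefers (r a) x y) →
      Gr r n ((a, x) :: l)

variable {r : ℕ → List ℕ} {n : ℕ} {l : List (ℕ × ℕ)}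

theorem Gr.fst (h : Gr r n l) : (l.map Prod.fst).Nodup ∧ ∀ a ∈ l.map Prod.fst, a < n := by
  induction h with
  | nil => simp
  | cons h ha hx ha' hx' hp ih =>
    simp only [List.map_cons, List.nodup_cons, List.mem_cons]
    refine ⟨⟨ha', ih.1⟩, ?_⟩
    rintro b (rfl | hb)
    · exact ha
    · exact ih.2 b hb

theorem Gr.snd (h : Gr r n l) : (l.map Prod.snd).Nodup ∧ ∀ a ∈ l.map Prod.snd, a < n := by
  induction h with
  | nil => simp
  | cons h ha hx ha' hx' hp ih =>
    simp only [List.map_cons, List.nodup_cons, List.mem_cons]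
    refine ⟨⟨hx', ih.1⟩, ?_⟩
    rintro b (rfl | hb)
    · exact hx
    · exact ih.2 b hb

theorem exists_notMem {s : List ℕ} (h : s.length < n) : ∃ a < n, a ∉ s := by
  by_contra hc
  push_neg at hc
  have h1 : Finset.range n ⊆ s.toFinset := by
    intro a ha
    rw [List.mem_toFinset]
    exact hc a (Finset.mem_range.1 ha)
  have h2 := Finset.card_le_card h1
  rw [Finset.card_range] at h2
  have h3 := List.toFinset_card_le s
  omega

theorem Gr.extend (hr : ∀ a < n, ∀ y < n, y ∈ r a) (h : Gr r n l) (hl : l.length < n) :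
    ∃ p, Gr r n (p :: l) := by
  obtain ⟨a, ha, ha'⟩ := exists_notMem (s := l.map Prod.fst) (by rwa [List.length_map])
  obtain ⟨x₀, hx, hx'⟩ := exists_notMem (s := l.map Prod.snd) (by rwa [List.length_map])
  have hne : ((Finset.range n).filter fun y => y ∉ l.map Prod.snd).Nonempty :=
    ⟨x₀, by rw [Finset.mem_filter, Finset.mem_range]; exact ⟨hx, hx'⟩⟩
  obtain ⟨x, hx1, hx2⟩ := Finset.exists_min_image _ (fun y => (r a).idxOf y) hne
  rw [Finset.mem_filter, Finset.mem_range] at hx1
  refine ⟨(a, x), Gr.cons h ha hx1.1 ha' hx1.2 ?_⟩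
  intro y hy hy' hyx
  have h1 := hx2 y (by rw [Finset.mem_filter, Finset.mem_range]; exact ⟨hy, hy'⟩)
  refine lt_of_le_of_ne h1 ?_
  intro h2
  exact hyx ((List.idxOf_inj (hr a ha x hx1.1)).1 h2).symm

theorem Gr.complete (hr : ∀ a < n, ∀ y < n, y ∈ r a) (h : Gr r n l) :
    ∃ l', Gr r n (l' ++ l) ∧ (l' ++ l).length = n := by
  have hle : l.length ≤ n := by
    have h1 := h.fst
    have h2 : (l.map Prod.fst).toFinset ⊆ Finset.range n := by
      intro a ha
      rw [Finset.mem_range]
      exact h1.2 a (List.mem_toFinset.1 ha)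
    have h3 := Finset.card_le_card h2
    rw [List.toFinset_card_of_nodup h1.1, Finset.card_range, List.length_map] at h3
    exact h3
  obtain ⟨k, hk⟩ := Nat.exists_eq_add_of_le hle
  induction k generalizing l with
  | zero => exact ⟨[], by simpa using h, by simpa using hk.symm⟩
  | succ k ih =>
    obtain ⟨p, hp⟩ := h.extend hr (by omega)
    obtain ⟨l', h1, h2⟩ := ih hp (by simp only [List.length_cons]; omega)
      (by simp only [List.length_cons]; omega)
    exact ⟨l' ++ [p], by simpa using h1, by simpa using h2⟩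

theorem Gr.later (h : Gr r n l) : ∀ c z, (c, z) ∈ l → ∀ y < n, y ∉ l.map Prod.snd →
    Prefers (r c) z y := by
  induction h with
  | nil => simp
  | @cons l a x h ha hx ha' hx' hp ih =>
    intro c z hcz y hy hy'
    simp only [List.map_cons, List.mem_cons, not_or] at hy'
    rcases List.mem_cons.1 hcz with h1 | h1
    · cases h1
      exact hp y hy hy'.2 hy'.1
    · exact ih c z h1 y hy hy'.2

theorem Gr.potential (h : Gr r n l) : ∃ ρ : ℕ → ℕ, ∀ c z b y, (c, z) ∈ l → (b, y) ∈ l →
    Prefers (r c) y z → ρ b < ρ c := by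
  induction h with
  | nil => exact ⟨fun _ => 0, by simp⟩
  | @cons l a x h ha hx ha' hx' hp ih =>
    obtain ⟨ρ, hρ⟩ := ih
    have hmem : ∀ {b y}, (b, y) ∈ l → b ≠ a := by
      rintro b y hb rfl
      exact ha' (List.mem_map.2 ⟨_, hb, rfl⟩)
    have hK : ∀ {b y}, (b, y) ∈ l → ρ b < 1 + ∑ q ∈ l.toFinset, ρ q.1 := by
      intro b y hb
      have h1 : ρ (b, y).1 ≤ ∑ q ∈ l.toFinset, ρ q.1 :=
        Finset.single_le_sum (f := fun q : ℕ × ℕ => ρ q.1) (fun _ _ => Nat.zero_le _)
          (List.mem_toFinset.2 hb)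
      simp only at h1
      omega
    refine ⟨fun c => if c = a then 1 + ∑ q ∈ l.toFinset, ρ q.1 else ρ c, ?_⟩
    intro c z b y hc hb hpr
    rcases List.mem_cons.1 hc with h1 | h1
    · cases h1
      rcases List.mem_cons.1 hb with h2 | h2
      · cases h2
        exact absurd hpr (lt_irrefl _)
      · simp only [if_true, hmem h2, if_false]
        exact hK h2
    · rcases List.mem_cons.1 hb with h2 | h2
      · cases h2
        have := h.later c z h1 x hx hx'
        exact absurd hpr (lt_asymm this)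
      · simp only [hmem h2, hmem h1, if_false]
        exact hρ c z b y h1 h2 hpr

/-- Adding a batch of pairs. -/
theorem Gr.batch (h : Gr r n l) (B : List (ℕ × ℕ)) (h1 : (B.map Prod.fst).Nodup)
    (h2 : (B.map Prod.snd).Nodup) (h3 : ∀ p ∈ B, p.1 < n ∧ p.2 < n ∧ p.1 ∉ l.map Prod.fst ∧
      p.2 ∉ l.map Prod.snd ∧
      ∀ y < n, y ∉ l.map Prod.snd → y ≠ p.2 → Prefers (r p.1) p.2 y) : Gr r n (B ++ l) := by
  induction B with
  | nil => simpa using h
  | cons p B ih =>
    obtain ⟨a, x⟩ := p
    simp only [List.map_cons, List.nodup_cons] at h1 h2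
    have h4 := ih h1.2 h2.2 fun q hq => h3 q (List.mem_cons_of_mem _ hq)
    obtain ⟨g1, g2, g3, g4, g5⟩ := h3 (a, x) List.mem_cons_self
    rw [List.cons_append]
    refine Gr.cons h4 g1 g2 ?_ ?_ ?_
    · rw [List.map_append, List.mem_append]
      rintro (h | h)
      · exact h1.1 h
      · exact g3 h
    · rw [List.map_append, List.mem_append]
      rintro (h | h)
      · exact h2.1 h
      · exact g4 h
    · intro y hy hy' hyx
      rw [List.map_append, List.mem_append, not_or] at hy'
      exact g5 y hy hy'.2 hyx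

/-- A potential excludes blocking coalitions. -/
theorem not_blocking {P : List (List ℕ)} {M : ℕ → ℕ} (ρ : ℕ → ℕ)
    (h : ∀ a < P.length, ∀ b < P.length, Envy P M a b → ρ b < ρ a) (l : List ℕ) :
    ¬ Blocking P M l := by
  rintro ⟨h1, _, h2, h3⟩
  have hne : (Finset.range l.length).Nonempty := ⟨0, by rw [Finset.mem_range]; omega⟩
  obtain ⟨i, hi, hi'⟩ := Finset.exists_min_image _ (fun i => ρ (l.getD i 0)) hne
  rw [Finset.mem_range] at hi
  have h4 : (i + 1) % l.length < l.length := Nat.mod_lt _ (by omega)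
  have h5 := hi' _ (Finset.mem_range.2 h4)
  have h6 : ∀ j < l.length, l.getD j 0 < P.length := by
    intro j hj
    rw [List.getD_eq_getElem _ _ hj]
    exact h2 _ (List.getElem_mem hj)
  have h7 := h _ (h6 i hi) _ (h6 _ h4) (h3 i hi)
  omega

/-- The matching of a complete sequence of choices. -/
theorem Gr.matching (h : Gr r n l) (hl : l.length = n) : ∃ M : List ℕ, M.Perm (List.range n) ∧
    (∀ a x, (a, x) ∈ l → M.getD a 0 = x) ∧
    ∃ ρ : ℕ → ℕ, ∀ a < n, ∀ b < n, Prefers (r a) (M.getD b 0) (M.getD a 0) → ρ b < ρ a := by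
  have h1 := h.fst
  have h2 := h.snd
  have hex : ∀ a : ℕ, ∃ x, a < n → (a, x) ∈ l := by
    intro a
    by_cases ha : a < n
    · have h3 : (l.map Prod.fst).toFinset = Finset.range n := by
        apply Finset.eq_of_subset_of_card_le
        · intro b hb
          rw [Finset.mem_range]
          exact h1.2 b (List.mem_toFinset.1 hb)
        · rw [List.toFinset_card_of_nodup h1.1, Finset.card_range, List.length_map, hl]
      have h4 : a ∈ l.map Prod.fst := by
        rw [← List.mem_toFinset, h3, Finset.mem_range]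
        exact ha
      obtain ⟨⟨b, x⟩, hb, rfl⟩ := List.mem_map.1 h4
      exact ⟨x, fun _ => hb⟩
    · exact ⟨0, fun h => absurd h ha⟩
  choose f hf using hex
  have huniq : ∀ {a x y}, (a, x) ∈ l → (a, y) ∈ l → x = y := by
    intro a x y hx hy
    have := List.inj_on_of_nodup_map h1.1 hx hy rfl
    exact congrArg Prod.snd this
  have hinj : ∀ a < n, ∀ b < n, f a = f b → a = b := by
    intro a ha b hb hab
    have := List.inj_on_of_nodup_map h2.1 (hf a ha) (hf b hb) hab
    exact congrArg Prod.fst this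
  have hget : ∀ a < n, ((List.range n).map f).getD a 0 = f a := by
    intro a ha
    rw [List.getD_eq_getElem _ _ (by simpa using ha)]
    simp
  obtain ⟨ρ, hρ⟩ := h.potential
  refine ⟨(List.range n).map f, ?_, ?_, ρ, ?_⟩
  · have hnd : ((List.range n).map f).Nodup :=
      List.Nodup.map_on (fun a ha b hb hab => hinj a (List.mem_range.1 ha) b
        (List.mem_range.1 hb) hab) List.nodup_range
    rw [List.perm_ext_iff_of_nodup hnd List.nodup_range]
    have h3 : ((List.range n).map f).toFinset = Finset.range n := by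
      apply Finset.eq_of_subset_of_card_le
      · intro b hb
        rw [List.mem_toFinset, List.mem_map] at hb
        obtain ⟨a, ha, rfl⟩ := hb
        rw [Finset.mem_range]
        exact h2.2 _ (List.mem_map.2 ⟨_, hf a (List.mem_range.1 ha), rfl⟩)
      · rw [List.toFinset_card_of_nodup hnd, Finset.card_range, List.length_map,
          List.length_range]
    intro a
    rw [← List.mem_toFinset, h3, Finset.mem_range, List.mem_range]
  · intro a x hax
    have ha : a < n := h1.2 a (List.mem_map.2 ⟨_, hax, rfl⟩)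
    rw [hget a ha]
    exact huniq (hf a ha) hax
  · intro a ha b hb hp
    rw [hget a ha, hget b hb] at hp
    exact hρ a (f a) b (f b) (hf a ha) (hf b hb) hp

end Pool.Agent.Q324.BS
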