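import Pool.Agent.Q324.BS.Red

/-!
# A stable matching gives a satisfying assignment
-/

namespace Pool.Agent.Q324.BS

open Pool.Agent.NPC Pool.Agent.Q324.CN

theorem no2 {P : List (List ℕ)} {M : ℕ → ℕ} (h : ∀ l, ¬ Blocking P M l) {a b : ℕ}
    (ha : a < P.length) (hb : b < P.length) (h1 : Envy P M a b) (h2 : Envy P M b a) : False := by
  have hab : a ≠ b := by
    rintro rfl
    exact lt_irrefl _ h1
  refine h [a, b] ⟨by simp, by simpa using hab, ?_, ?_⟩
  · intro x hx
    simp only [List.mem_cons, List.not_mem_nil, or_false] at hx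
    rcases hx with rfl | rfl
    · exact ha
    · exact hb
  · intro i hi
    simp only [List.length_cons, List.length_nil, zero_add, Nat.reduceAdd] at hi
    interval_cases i
    · simpa using h1
    · simpa using h2

theorem no3 {P : List (List ℕ)} {M : ℕ → ℕ} (h : ∀ l, ¬ Blocking P M l) {a b c : ℕ}
    (ha : a < P.length) (hb : b < P.length) (hc : c < P.length)
    (h1 : Envy P M a b) (h2 : Envy P M b c) (h3 : Envy P M c a) : False := by
  have hab : a ≠ b := by
    rintro rfl
    exact lt_irrefl _ h1
  have hbc : b ≠ c := by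
    rintro rfl
    exact lt_irrefl _ h2
  have hac : a ≠ c := by
    rintro rfl
    exact lt_irrefl _ h3
  refine h [a, b, c] ⟨by simp, by simp [hab, hbc, hac], ?_, ?_⟩
  · intro x hx
    simp only [List.mem_cons, List.not_mem_nil, or_false] at hx
    rcases hx with rfl | rfl | rfl
    · exact ha
    · exact hb
    · exact hc
  · intro i hi
    simp only [List.length_cons, List.length_nil, zero_add, Nat.reduceAdd] at hi
    interval_cases i
    · simpa using h1
    · simpa using h2
    · simpa using h3

theorem no4 {P : List (List ℕ)} {M : ℕ → ℕ} (h : ∀ l, ¬ Blocking P M l) {a b c d : ℕ}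
    (ha : a < P.length) (hb : b < P.length) (hc : c < P.length) (hd : d < P.length)
    (hac : a ≠ c) (hbd : b ≠ d)
    (h1 : Envy P M a b) (h2 : Envy P M b c) (h3 : Envy P M c d) (h4 : Envy P M d a) : False := by
  have hab : a ≠ b := by
    rintro rfl
    exact lt_irrefl _ h1
  have hbc : b ≠ c := by
    rintro rfl
    exact lt_irrefl _ h2
  have hcd : c ≠ d := by
    rintro rfl
    exact lt_irrefl _ h3
  have had : a ≠ d := by
    rintro rfl
    exact lt_irrefl _ h4
  refine h [a, b, c, d] ⟨by simp, by simp [hab, hbc, hac, hcd, had, hbd], ?_, ?_⟩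
  · intro x hx
    simp only [List.mem_cons, List.not_mem_nil, or_false] at hx
    rcases hx with rfl | rfl | rfl | rfl
    · exact ha
    · exact hb
    · exact hc
    · exact hd
  · intro i hi
    simp only [List.length_cons, List.length_nil, zero_add, Nat.reduceAdd] at hi
    interval_cases i
    · simpa using h1
    · simpa using h2
    · simpa using h3
    · simpa using h4

theorem hXs_symm {N i j : ℕ} (h : i ≠ j) : hXs N i j = hXs N j i := by
  unfold hXs
  rcases lt_or_gt_of_ne h with h1 | h1
  · rw [if_pos h1, if_neg (by omega)]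
  · rw [if_neg (by omega), if_pos h1]

theorem hXs_inj {N i j i' j' : ℕ} (hi : i < N) (hj : j < N) (hi' : i' < N) (hj' : j' < N)
    (h : hXs N i j = hXs N i' j') :
    (i = i' ∧ j = j') ∨ (i = j' ∧ j = i') := by
  unfold hXs at h
  split_ifs at h with h1 h2 h2
  · exact Or.inl (hX_inj hj hj' h)
  · have := hX_inj hj hi' h
    exact Or.inr this
  · have := hX_inj hi hj' h
    exact Or.inr ⟨this.2, this.1⟩
  · have := hX_inj hi hi' h
    exact Or.inl ⟨this.2, this.1⟩

variable {φ : Φ} {M : List ℕ}

theorem getD_mem {n i : ℕ} (hM : M.Perm (List.range n)) (hi : i < n) : M.getD i 0 < n := by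
  have hl : M.length = n := by rw [hM.length_eq, List.length_range]
  rw [List.getD_eq_getElem _ _ (by omega)]
  exact List.mem_range.1 (hM.subset (List.getElem_mem _))

theorem partner {n x : ℕ} (hM : M.Perm (List.range n)) (hx : x < n) :
    M.idxOf x < n ∧ M.getD (M.idxOf x) 0 = x := by
  have hl : M.length = n := by rw [hM.length_eq, List.length_range]
  have hmem : x ∈ M := hM.symm.subset (List.mem_range.2 hx)
  have h1 := List.idxOf_lt_length_of_mem hmem
  refine ⟨by omega, ?_⟩
  rw [List.getD_eq_getElem _ _ h1]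
  exact List.getElem_idxOf h1

/-- The women force the pair `(0, 0)`. -/
theorem forced (h : Stable (inst φ) M) : M.getD 0 0 = 0 := by
  obtain ⟨hM, -, hW⟩ := h
  change M.Perm (List.range (men φ).length) at hM
  rw [men_length] at hM
  have hn := num_pos φ
  have hl : M.length = num φ := by rw [hM.length_eq, List.length_range]
  have hnd : M.Nodup := hM.nodup_iff.2 List.nodup_range
  by_contra h0
  have h1 := getD_mem hM hn
  obtain ⟨h2, h3⟩ := partner hM hn
  have h4 : M.idxOf 0 ≠ 0 := by
    intro h
    rw [h] at h3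
    exact h0 h3
  have h5 : M.idxOf (M.getD 0 0) = 0 := by
    rw [List.getD_eq_getElem _ _ (by omega)]
    exact hnd.idxOf_getElem 0 (by omega)
  refine no2 hW (a := 0) (b := M.getD 0 0) ?_ ?_ ?_ ?_
  · change 0 < (wom φ).length
    rw [wom_length]
    exact hn
  · change _ < (wom φ).length
    rw [wom_length]
    exact h1
  · change Prefers ((wom φ).getD 0 []) (M.idxOf (M.getD 0 0)) (M.idxOf 0)
    rw [wom_getD hn, h5]
    unfold wo
    rw [if_pos rfl]
    obtain ⟨k, hk⟩ := Nat.exists_eq_add_of_lt hn
    rw [hk, zero_add, List.range_succ_eq_map]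
    exact pref_cons h4
  · change Prefers ((wom φ).getD (M.getD 0 0) []) (M.idxOf 0) (M.idxOf (M.getD 0 0))
    rw [wom_getD h1, h5]
    unfold wo
    rw [if_neg h0]
    refine pref_short ?_ ?_
    · rw [List.mem_map]
      exact ⟨M.idxOf 0 - 1, List.mem_range.2 (by omega), by omega⟩
    · rw [List.mem_map]
      rintro ⟨x, _, hx⟩
      omega

theorem envy_of {a b : ℕ} {M : ℕ → ℕ} (ha : a < num φ)
    (h : Prefers (full (num φ) (sh φ a)) (M b) (M a)) : Envy (inst φ).1 M a b := by
  change Prefers ((men φ).getD a []) _ _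
  rw [men_getD ha]
  exact h

/-- If man `a` does not have his partner on his short list, he prefers woman `0`. -/
theorem bad {a x : ℕ} (h0 : x ≠ 0) (h : x ∉ sh φ a) : Prefers (full (num φ) (sh φ a)) 0 x :=
  pref_zero (num_pos φ) (zero_notMem_sh φ a) h h0

theorem sound (h : Stable (inst φ) M) : SAT3 φ := by
  have hf := forced h
  obtain ⟨hM, hP, -⟩ := h
  change M.Perm (List.range (men φ).length) at hM
  rw [men_length] at hM
  have hn := num_pos φ
  have hlen : (inst φ).1.length = num φ := men_length φ
  have hl : ∀ {a}, a < num φ → a < (inst φ).1.length := fun h => by rw [hlen]; exact h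
  -- the clause woman
  have key1 : ∀ j < φ.length, ∃ i, i < 3 * φ.length ∧ i / 3 = j ∧ aQ i < num φ ∧
      M.getD (aQ i) 0 = hC j ∧ Envy (inst φ).1 (fun a => M.getD a 0) 0 (aQ i) := by
    intro j hj
    have hx : hC j < num φ := sh_lt (k := 0) (by
      rw [sh_zero]
      exact List.mem_map.2 ⟨j, List.mem_range.2 hj, rfl⟩)
    obtain ⟨ha, ha'⟩ := partner hM hx
    have e1 : Envy (inst φ).1 (fun a => M.getD a 0) 0 (M.idxOf (hC j)) := by
      refine envy_of hn ?_
      rw [ha', hf]
      unfold full
      exact pref_short (by rw [sh_zero]; exact List.mem_map.2 ⟨j, List.mem_range.2 hj, rfl⟩)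
        (zero_notMem_sh φ 0)
    have hmem : hC j ∈ sh φ (M.idxOf (hC j)) := by
      by_contra hc
      refine no2 hP (hl hn) (hl ha) e1 (envy_of ha ?_)
      rw [hf, ha']
      exact bad (by unfold hC; omega) hc
    rcases mem_sh hmem with ⟨h1, _⟩ | ⟨i, hi, h1, ⟨j', hj', _, h2⟩ | h2⟩ |
      ⟨i, hi, j', hj', _, h1, h2 | h2⟩
    · exfalso
      rw [h1, hf] at ha'
      unfold hC at ha'
      omega
    · unfold hC hE at h2
      omega
    · refine ⟨i, hi, ?_, ?_, ?_, ?_⟩
      · unfold hC at h2
        omega
      · rw [← h1]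
        exact ha
      · rw [← h1]
        exact ha'
      · rw [← h1]
        exact e1
    · have := hXs_mod (3 * φ.length) i j'
      rw [← h2] at this
      unfold hC at this
      omega
    · unfold hC hE at h2
      omega
  choose! c hc using key1
  -- the pair women
  have key2 : ∀ j < φ.length, ∀ i' < 3 * φ.length, conf φ (c j) i' = true →
      M.getD (aA (3 * φ.length) (c j) i') 0 = hE (3 * φ.length) (c j) i' ∧
      M.getD (aA (3 * φ.length) i' (c j)) 0 = hXs (3 * φ.length) (c j) i' := by
    intro j hj i' hi' hcf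
    obtain ⟨hi, hij, hQ, hMQ, hen⟩ := hc j hj
    have hne := conf_ne hcf
    -- E
    have hEs : hE (3 * φ.length) (c j) i' ∈ sh φ (aQ (c j)) := by
      rw [sh_aQ hi, List.mem_append, mem_sQ]
      exact Or.inl ⟨i', hi', hcf, rfl⟩
    obtain ⟨hb, hb'⟩ := partner hM (sh_lt hEs)
    have e2 : Envy (inst φ).1 (fun a => M.getD a 0) (aQ (c j))
        (M.idxOf (hE (3 * φ.length) (c j) i')) := by
      refine envy_of hQ ?_
      rw [hb', hMQ, sh_aQ hi]
      unfold full
      rw [List.append_assoc]
      refine pref_short ?_ ?_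
      · rw [mem_sQ]
        exact ⟨i', hi', hcf, rfl⟩
      · rw [mem_sQ]
        rintro ⟨x, _, _, hx⟩
        unfold hC hE at hx
        omega
    have hmem : hE (3 * φ.length) (c j) i' ∈
        sh φ (M.idxOf (hE (3 * φ.length) (c j) i')) := by
      by_contra hcc
      refine no3 hP (hl hn) (hl hQ) (hl hb) hen e2 (envy_of hb ?_)
      rw [hf, hb']
      exact bad (by unfold hE; omega) hcc
    have hB : M.idxOf (hE (3 * φ.length) (c j) i') = aA (3 * φ.length) (c j) i' := by
      rcases mem_sh hmem with ⟨_, j', _, h2⟩ | ⟨i, _, h1, ⟨j', hj', _, h2⟩ | h2⟩ |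
        ⟨i, hi2, j', hj', _, h1, h2 | h2⟩
      · unfold hC hE at h2
        omega
      · exfalso
        have h3 := (hE_inj hi' hj' h2).1
        rw [h1, ← h3, hMQ] at hb'
        unfold hC hE at hb'
        omega
      · unfold hC hE at h2
        omega
      · have := hXs_mod (3 * φ.length) i j'
        rw [← h2] at this
        unfold hE at this
        omega
      · have h3 := hE_inj hi' hj' h2
        rw [h1, ← h3.1, ← h3.2]
    rw [hB] at hb hb' e2
    refine ⟨hb', ?_⟩
    -- X
    have hXm : hXs (3 * φ.length) (c j) i' ∈ sh φ (aA (3 * φ.length) (c j) i') := by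
      rw [sh_aA hi hi' hcf]
      exact List.mem_cons_self
    obtain ⟨hd, hd'⟩ := partner hM (sh_lt hXm)
    have hXE : hXs (3 * φ.length) (c j) i' ≠ hE (3 * φ.length) (c j) i' := by
      intro h
      have := hXs_mod (3 * φ.length) (c j) i'
      rw [h] at this
      unfold hE at this
      omega
    have e3 : Envy (inst φ).1 (fun a => M.getD a 0) (aA (3 * φ.length) (c j) i')
        (M.idxOf (hXs (3 * φ.length) (c j) i')) := by
      refine envy_of hb ?_
      rw [hd', hb', sh_aA hi hi' hcf]
      exact pref_cons hXE.symm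
    have hmem2 : hXs (3 * φ.length) (c j) i' ∈
        sh φ (M.idxOf (hXs (3 * φ.length) (c j) i')) := by
      by_contra hcc
      refine no4 hP (hl hn) (hl hQ) (hl hb) (hl hd) ?_ ?_ hen e2 e3 (envy_of hd ?_)
      · unfold aA
        omega
      · intro h
        rw [← h, hMQ] at hd'
        have := hXs_mod (3 * φ.length) (c j) i'
        rw [← hd'] at this
        unfold hC at this
        omega
      · rw [hf, hd']
        refine bad ?_ hcc
        have := hXs_mod (3 * φ.length) (c j) i'
        omega
    rcases mem_sh hmem2 with ⟨_, j', _, h2⟩ | ⟨i, _, h1, ⟨j', hj', _, h2⟩ | h2⟩ |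
      ⟨i, hi2, j', hj', h0, h1, h2 | h2⟩
    · have := hXs_mod (3 * φ.length) (c j) i'
      rw [h2] at this
      unfold hC at this
      omega
    · have := hXs_mod (3 * φ.length) (c j) i'
      rw [h2] at this
      unfold hE at this
      omega
    · have := hXs_mod (3 * φ.length) (c j) i'
      rw [h2] at this
      unfold hC at this
      omega
    · rcases hXs_inj hi hi' hi2 hj' h2 with h3 | h3
      · exfalso
        rw [h1, ← h3.1, ← h3.2, hb'] at hd'
        exact hXE hd'.symm
      · rw [h1, ← h3.1, ← h3.2] at hd'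
        exact hd'
    · have := hXs_mod (3 * φ.length) (c j) i'
      rw [h2] at this
      unfold hE at this
      omega
  rw [sat_iff_choice]
  refine ⟨c, fun j hj => (hc j hj).2.1, fun j hj j' hj' => ?_⟩
  rw [Bool.eq_false_iff]
  intro hcf
  have h1 := (key2 j hj (c j') (hc j' hj').1 hcf).2
  have h2 := (key2 j' hj' (c j) (hc j hj).1 (conf_symm hcf)).1
  rw [h1] at h2
  have := hXs_mod (3 * φ.length) (c j) (c j')
  rw [h2] at this
  unfold hE at this
  omega

end Pool.Agent.Q324.BS
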